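import Pool.Agent.W425.MM.Defs
import Pool.Agent.W333.SG.C1
import Pool.Agent.W327.SG.C2

/-!
# MM-A3: the limit of the integral for one simplex
-/

set_option autoImplicit false

namespace Pool.Agent.W554.MM

open MvPolynomial Pool.Agent.H628R4.TZ Pool.Agent.H628R4.TP Pool.Agent.W425.SM
  Pool.Agent.W425.SG Filter Topology MeasureTheory Set

variable {r N : ℕ}

theorem indJ_of_li (v : Fin r → Fin N → ℕ) (J : Finset (Fin r))
    (h : LinearIndependent ℚ (fun j : J => (fun i => (v j i : ℚ) : Fin N → ℚ))) : IndJ v J := by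
  unfold IndJ
  rw [affineIndependent_iff]
  intro s w _ h2
  exact linearIndependent_iff'.1 h s w h2

/-- the point `(g, a)` -/
noncomputable def w0 (a : Fin N → ℕ) (g : ℕ) : Fin (N + 1) → ℝ :=
  Fin.cons (g : ℝ) (fun i => (a i : ℝ))

theorem ymap_w0 (v : Fin r → Fin N → ℕ) (a : Fin N → ℕ) (g : ℕ) (t : ℝ) (j : Fin r) :
    ymap v (t • w0 a g) j = t * (((∑ i, a i * v j i : ℕ) : ℝ) - g) := by
  unfold ymap w0
  simp only [Pi.smul_apply, Fin.cons_succ, Fin.cons_zero, smul_eq_mul]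
  push_cast
  rw [mul_sub, Finset.mul_sum]
  congr 1
  refine Finset.sum_congr rfl fun i _ => ?_
  ring

theorem comb_of (v : Fin r → Fin N → ℕ) (a : Fin N → ℕ) (g : ℕ) (hg : 0 < g)
    (J : Finset (Fin r)) (hJN : J.card = N) (hJ : ∀ j ∈ J, ∑ i, a i * v j i = g)
    (hLI : LinearIndependent ℚ (fun j : J => (fun i => (v j i : ℚ) : Fin N → ℚ))) (l : Fin r)
    (hl : ∑ i, a i * v l i = g) : ∃ c, Comb v J l c := by
  classical
  have hspan : Submodule.span ℚ (Set.range (fun j : J => (fun i => (v j i : ℚ) : Fin N → ℚ))) =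
      ⊤ := by
    apply hLI.span_eq_top_of_card_eq_finrank'
    rw [Fintype.card_coe, hJN, Module.finrank_fintype_fun_eq_card, Fintype.card_fin]
  have hmem : (fun i => (v l i : ℚ) : Fin N → ℚ) ∈
      Submodule.span ℚ (Set.range (fun j : J => (fun i => (v j i : ℚ) : Fin N → ℚ))) := by
    rw [hspan]; exact Submodule.mem_top
  obtain ⟨c, hc⟩ := (Submodule.mem_span_range_iff_exists_fun ℚ).1 hmem
  have hci : ∀ i, ∑ j : J, c j * (v j i : ℚ) = (v l i : ℚ) := by
    intro i
    have := congrFun hc i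
    simpa [Finset.sum_apply] using this
  have hsum : ∑ j : J, c j = 1 := by
    have h1 : (g : ℚ) = ∑ j : J, c j * (g : ℚ) := by
      calc (g : ℚ) = ∑ i, (a i : ℚ) * (v l i : ℚ) := by exact_mod_cast hl.symm
        _ = ∑ i, (a i : ℚ) * ∑ j : J, c j * (v j i : ℚ) := by
            refine Finset.sum_congr rfl fun i _ => ?_
            rw [hci]
        _ = ∑ j : J, c j * ∑ i, (a i : ℚ) * (v j i : ℚ) := by
            simp_rw [Finset.mul_sum]
            rw [Finset.sum_comm]
            refine Finset.sum_congr rfl fun j _ => Finset.sum_congr rfl fun i _ => ?_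
            ring
        _ = ∑ j : J, c j * (g : ℚ) := by
            refine Finset.sum_congr rfl fun j _ => ?_
            have := hJ j j.2
            congr 1
            exact_mod_cast this
    rw [← Finset.sum_mul] at h1
    have hg' : (g : ℚ) ≠ 0 := by exact_mod_cast hg.ne'
    field_simp at h1
    linarith
  refine ⟨fun j => if h : j ∈ J then c ⟨j, h⟩ else 0, fun j hj => dif_neg hj, ?_, fun i => ?_⟩
  · have := Pool.Agent.W327.SG.sum_ext c (fun _ => 1)
    simp only [mul_one] at this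
    rw [this, hsum]
  · rw [Pool.Agent.W327.SG.sum_ext c (fun j => (v j i : ℚ)), hci]

theorem wt_w0 (a : Fin N → ℕ) (g : ℕ) (s t : ℝ) :
    wt (lm (N := N) s) (t • w0 a g) =
      ((Real.exp (-((g : ℝ) * s + ((∑ i, a i : ℕ) : ℝ)) * t) : ℝ) : ℂ) := by
  unfold wt
  rw [← Complex.ofReal_prod, ← Real.exp_sum]
  congr 2
  rw [Fin.sum_univ_succ]
  unfold lm w0
  simp only [Pi.smul_apply, Fin.cons_succ, Fin.cons_zero, smul_eq_mul]
  push_cast
  have : ∑ i, (-1 : ℝ) * (t * (a i : ℝ)) = -(∑ i, (a i : ℝ)) * t := by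
    rw [← Finset.sum_neg_distrib, Finset.sum_mul]
    refine Finset.sum_congr rfl fun i _ => ?_
    ring
  rw [this]
  ring

theorem lim_w0 (v : Fin r → Fin N → ℕ) (θ : Fin r → ℝ) (a : Fin N → ℕ) (g : ℕ)
    (ha : ∀ i, 0 < a i) (hg : 0 < g) (hv : ∀ j, g ≤ ∑ i, a i * v j i)
    (J : Finset (Fin r)) (hJN : J.card = N) (hJ : ∀ j ∈ J, ∑ i, a i * v j i = g)
    (hLI : LinearIndependent ℚ (fun j : J => (fun i => (v j i : ℚ) : Fin N → ℚ)))
    (hAdm : Adm v θ J) (α s t : ℝ) :
    limGH v θ α s J (t • w0 a g) = (Ioi (0 : ℝ)).indicator (fun t =>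
      ((Real.exp (-((g : ℝ) * s + ((∑ i, a i : ℕ) : ℝ)) * t) : ℝ) : ℂ)) t := by
  classical
  have hg' : (0 : ℝ) < g := by exact_mod_cast hg
  by_cases ht : t ∈ Ioi (0 : ℝ)
  · have ht0 : (0 : ℝ) < t := ht
    rw [indicator_of_mem ht]
    unfold limGH
    rw [if_pos, wt_w0]
    refine ⟨?_, fun i => Or.inl ?_, fun l hl => ?_, hAdm⟩
    · show 0 < t * (g : ℝ)
      positivity
    · show 0 < t * (a i : ℝ)
      have : (0 : ℝ) < a i := by exact_mod_cast ha i
      positivity
    · rw [ymap_w0]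
      apply mul_pos ht0
      rw [sub_pos]
      have h1 : g ≠ ∑ i, a i * v l i := by
        intro h
        obtain ⟨c, hc⟩ := comb_of v a g hg J hJN hJ hLI l h.symm
        exact hl c hc
      exact_mod_cast lt_of_le_of_ne (hv l) h1
  · rw [indicator_of_notMem ht]
    unfold limGH
    rw [if_neg]
    rintro ⟨h, -⟩
    apply ht
    have h1 : 0 < t * (g : ℝ) := h
    exact pos_of_mul_pos_left h1 hg'.le

theorem taskA3 : Pool.Agent.W425.MM.TaskA3 := by
  classical
  intro r N v θ hθ a g hN ha hg hv J hJN hJ hLI hAdm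
  have hI := indJ_of_li v J hLI
  have hJne : J.Nonempty := by
    rw [← Finset.card_pos, hJN]; exact hN
  obtain ⟨d, Θ, ϑ, -, hA, -, -⟩ := Pool.Agent.W333.SG.exists_adaptJ v J hI
  obtain rfl : d = 1 := by
    have := hA.dim
    omega
  set κ : ℝ := ϑ.toReal with hκ
  set w : Fin (N + 1) → ℝ := Θ (0, fun _ => 1) with hw
  have hlin : ∀ b : Fin 1 → ℝ, Θ (0, b) = b 0 • w := by
    intro b
    rw [hw, ← map_smul]
    congr 1
    refine Prod.ext ?_ ?_
    · simp
    · funext i
      simp [Subsingleton.elim i 0]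
  obtain ⟨b, hb⟩ : ∃ b : Fin 1 → ℝ, Θ (0, b) = w0 a g := by
    obtain ⟨⟨z, b⟩, hzb⟩ := Θ.surjective (w0 a g)
    have hz : z = 0 := by
      funext j
      rw [← hA.y z b j, hzb]
      have := ymap_w0 v a g 1 (j : Fin r)
      rw [one_smul] at this
      rw [this, hJ j j.2]
      simp
    rw [hz] at hzb
    exact ⟨b, hzb⟩
  have hg' : (0 : ℝ) < g := by exact_mod_cast hg
  have hb0 : b 0 ≠ 0 := by
    intro h
    rw [hlin, h, zero_smul] at hb
    have := congrFun hb 0
    simp only [w0, Fin.cons_zero, Pi.zero_apply] at this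
    linarith
  set lam : ℝ := (b 0)⁻¹ with hlam
  have hlam0 : lam ≠ 0 := inv_ne_zero hb0
  have hww : w = lam • w0 a g := by
    rw [← hb, hlin, smul_smul, hlam, inv_mul_cancel₀ hb0, one_smul]
  refine ⟨(κ : ℂ) * ((|lam⁻¹| : ℝ) : ℂ), ?_, ?_⟩
  · refine mul_ne_zero ?_ ?_
    · exact_mod_cast hA.pos.ne'
    · exact_mod_cast (abs_pos.2 (inv_ne_zero hlam0)).ne'
  · intro K α s hK hα hs
    have h1 := Pool.Agent.W327.SG.taskC2 v θ hθ K α s hK hα hs J hI hJne 1 Θ κ hA
    convert! h1 using 2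
    have hpos : 0 < (g : ℝ) * s + ((∑ i, a i : ℕ) : ℝ) := by positivity
    have e1 : ∫ a' : Fin 1 → ℝ, limGH v θ α s J (Θ (0, a')) =
        ∫ t : ℝ, limGH v θ α s J ((t * lam) • w0 a g) := by
      rw [← (volume_preserving_funUnique (Fin 1) ℝ).integral_comp
        (MeasurableEquiv.funUnique (Fin 1) ℝ).measurableEmbedding]
      refine integral_congr_ae (Filter.Eventually.of_forall fun b' => ?_)
      simp only
      rw [hlin, hww, smul_smul]
      rfl
    have e2 : ∫ t : ℝ, limGH v θ α s J ((t * lam) • w0 a g) =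
        |lam⁻¹| • ∫ t : ℝ, limGH v θ α s J (t • w0 a g) :=
      Measure.integral_comp_mul_right (fun t => limGH v θ α s J (t • w0 a g)) lam
    have e3 : ∫ t : ℝ, limGH v θ α s J (t • w0 a g) =
        ((((g : ℝ) * s + ((∑ i, a i : ℕ) : ℝ) : ℝ)) : ℂ)⁻¹ := by
      simp_rw [lim_w0 v θ a g ha hg hv J hJN hJ hLI hAdm α s]
      rw [integral_indicator measurableSet_Ioi]
      exact exp_int _ hpos
    rw [e1, e2, e3, Complex.real_smul]
    push_cast
    rw [div_eq_mul_inv]
    ring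

end Pool.Agent.W554.MM
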